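import Pool.Agent.Lib.MP_bae357_pr.Defs

/-!
# Poisson estimates, the mixed law, tails and the growth condition
-/

open MeasureTheory ProbabilityTheory Set Metric Filter
open scoped ENNReal NNReal Nat Topology

namespace StableMM

/-- volume of the unit ball, as a real number -/
noncomputable def vol1 (d : ℕ) : ℝ := (volume (ball (0 : E d) 1)).toReal

lemma vol1_pos (d : ℕ) : 0 < vol1 d := by
  unfold vol1
  apply ENNReal.toReal_pos
  · exact (measure_ball_pos volume _ one_pos).ne'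
  · exact measure_ball_lt_top.ne

lemma markCount_prod_univ {d : ℕ} (Pts : Set (E d)) (D : E d → ℕ) (B : Set (E d)) :
    markCount Pts D (B ×ˢ (univ : Set ℕ)) = (Pts ∩ B).encard := by
  unfold markCount
  congr 1
  ext x
  simp

/-- The mixture `p δ₁ + (1 - p) ν`. -/
noncomputable def mix (p : ℝ≥0∞) (hp : p ≤ 1) (ν : PMF ℕ) : PMF ℕ :=
  ⟨fun n => p * (PMF.pure 1 : PMF ℕ) n + (1 - p) * ν n, by
    rw [ENNReal.summable.hasSum_iff, ENNReal.tsum_add, ENNReal.tsum_mul_left,
      ENNReal.tsum_mul_left, PMF.tsum_coe, PMF.tsum_coe, mul_one, mul_one]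
    exact add_tsub_cancel_of_le hp⟩

lemma mix_apply (p : ℝ≥0∞) (hp : p ≤ 1) (ν : PMF ℕ) (n : ℕ) :
    mix p hp ν n = p * (PMF.pure 1 : PMF ℕ) n + (1 - p) * ν n := rfl

/-- The law `ν` satisfies `n ν([n,∞)) / log log n → ∞`. -/
def HeavyTail (ν : PMF ℕ) : Prop :=
  Tendsto (fun n : ℕ => n * (ν.toMeasure (Set.Ici n)).toReal / Real.log (Real.log n)) atTop atTop

lemma mix_toMeasure_ge (p : ℝ≥0∞) (hp : p ≤ 1) (ν : PMF ℕ) (S : Set ℕ) :
    (1 - p) * ν.toMeasure S ≤ (mix p hp ν).toMeasure S := by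
  rw [PMF.toMeasure_apply (hs := MeasurableSet.of_discrete),
    PMF.toMeasure_apply (hs := MeasurableSet.of_discrete), ← ENNReal.tsum_mul_left]
  refine ENNReal.tsum_le_tsum fun n => ?_
  by_cases hn : n ∈ S
  · rw [indicator_of_mem hn, indicator_of_mem hn, mix_apply]
    exact le_add_self
  · rw [indicator_of_notMem hn, indicator_of_notMem hn, mul_zero]

section Poisson


/-- Exponential Markov inequality for the Poisson distribution. -/
lemma poisson_tail (r : ℝ≥0) (M : ℕ) :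
    (poissonMeasure r) {n | M ≤ n} ≤ ENNReal.ofReal (Real.exp r / 2 ^ M) := by
  rw [poissonMeasure, Measure.sum_apply _ (MeasurableSet.of_discrete)]
  have hs : HasSum (fun n : ℕ => Real.exp (-r) * (2 * r : ℝ) ^ n / (n)! / 2 ^ M)
      (Real.exp r / 2 ^ M) := by
    have h1 := (NormedSpace.expSeries_div_hasSum_exp (2 * r : ℝ)).mul_left (Real.exp (-r))
    rw [← Real.exp_eq_exp_ℝ, ← Real.exp_add] at h1
    have h2 : -(r : ℝ) + 2 * r = r := by ring
    rw [h2] at h1
    have h3 := h1.div_const (2 ^ M)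
    have h4 : (fun n : ℕ => Real.exp (-r) * (2 * r : ℝ) ^ n / (n)! / 2 ^ M) =
        fun n : ℕ => Real.exp (-r) * ((2 * r : ℝ) ^ n / (n)!) / 2 ^ M := by
      funext n; ring
    rw [h4]
    exact h3
  have hpos : ∀ n : ℕ, 0 ≤ Real.exp (-r) * (2 * r : ℝ) ^ n / (n)! / 2 ^ M := by
    intro n; positivity
  rw [← hs.tsum_eq, ENNReal.ofReal_tsum_of_nonneg hpos hs.summable]
  refine ENNReal.tsum_le_tsum ?_
  intro n
  rw [Measure.smul_apply, Measure.dirac_apply' _ (MeasurableSet.of_discrete), smul_eq_mul]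
  by_cases hn : M ≤ n
  · rw [indicator_of_mem (by exact hn), Pi.one_apply, mul_one]
    apply ENNReal.ofReal_le_ofReal
    rw [mul_pow, le_div_iff₀ (by positivity)]
    have : (2 : ℝ) ^ M ≤ 2 ^ n := pow_le_pow_right₀ (by norm_num) hn
    calc Real.exp (-r) * (r : ℝ) ^ n / (n)! * 2 ^ M
        ≤ Real.exp (-r) * (r : ℝ) ^ n / (n)! * 2 ^ n := by
          apply mul_le_mul_of_nonneg_left this
          positivity
      _ = _ := by ring
  · rw [indicator_of_notMem (by exact hn), mul_zero]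
    exact zero_le

variable {Ω : Type*} [MeasurableSpace Ω] {P : Measure Ω} {d : ℕ}
  {Pts : Ω → Set (E d)} {D : Ω → E d → ℕ} {μ : PMF ℕ}

/-- Law of a single count. -/
lemma IsMarkedPoisson.hasLaw (h : IsMarkedPoisson P Pts D μ) (S : Set (E d × ℕ))
    (hS : MeasurableSet S) (hb : Bornology.IsBounded (Prod.fst '' S)) :
    HasLaw (fun ω => markCount (Pts ω) (D ω) S)
        ((poissonMeasure (((volume : Measure (E d)).prod μ.toMeasure) S).toNNReal).map
          (Nat.cast : ℕ → ℕ∞)) P := by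
  have := (h 1 (fun _ => S) (fun _ => hS) (fun _ => hb)
    (by intro i j hij; exact absurd (Subsingleton.elim i j) hij)).2 0
  exact this

/-- Void probability. -/
lemma IsMarkedPoisson.void (h : IsMarkedPoisson P Pts D μ) (S : Set (E d × ℕ))
    (hS : MeasurableSet S) (hb : Bornology.IsBounded (Prod.fst '' S)) :
    P {ω | markCount (Pts ω) (D ω) S = 0} =
      ENNReal.ofReal (Real.exp (-(((volume : Measure (E d)).prod μ.toMeasure) S).toReal)) := by
  rw [(h.hasLaw S hS hb).measure_eq (p := fun x => x = 0) (MeasurableSet.of_discrete),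
    Measure.map_apply (measurable_of_countable _) (MeasurableSet.of_discrete)]
  have : (Nat.cast ⁻¹' {x : ℕ∞ | x = 0} : Set ℕ) = {0} := by
    ext n; simp
  rw [this, poissonMeasure_singleton]
  simp [ENNReal.coe_toNNReal_eq_toReal]

/-- Upper tail. -/
lemma IsMarkedPoisson.tail (h : IsMarkedPoisson P Pts D μ) (S : Set (E d × ℕ))
    (hS : MeasurableSet S) (hb : Bornology.IsBounded (Prod.fst '' S)) (M : ℕ) :
    P {ω | (M : ℕ∞) ≤ markCount (Pts ω) (D ω) S} ≤
      ENNReal.ofReal (Real.exp (((volume : Measure (E d)).prod μ.toMeasure) S).toReal / 2 ^ M) := by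
  rw [(h.hasLaw S hS hb).measure_eq (p := fun x => (M : ℕ∞) ≤ x) (MeasurableSet.of_discrete),
    Measure.map_apply (measurable_of_countable _) (MeasurableSet.of_discrete)]
  have : (Nat.cast ⁻¹' {x : ℕ∞ | (M : ℕ∞) ≤ x} : Set ℕ) = {n | M ≤ n} := by
    ext n; simp
  rw [this]
  exact poisson_tail _ _

/-- almost surely, the point set is locally finite -/
lemma IsMarkedPoisson.ae_locallyFinite (h : IsMarkedPoisson P Pts D μ) :
    ∀ᵐ ω ∂P, ∀ n : ℕ, (Pts ω ∩ ball (0 : E d) n).Finite := by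
  rw [ae_all_iff]
  intro n
  have hlaw := h.hasLaw (ball (0 : E d) n ×ˢ univ) (measurableSet_ball.prod MeasurableSet.univ) (by
    refine (isBounded_ball (x := (0 : E d)) (r := n)).subset ?_
    rintro _ ⟨⟨x, m⟩, hx, rfl⟩
    exact hx.1)
  have h1 : P {ω | markCount (Pts ω) (D ω) (ball (0 : E d) n ×ˢ univ) = ⊤} = 0 := by
    rw [hlaw.measure_eq (p := fun x => x = ⊤) (MeasurableSet.of_discrete),
      Measure.map_apply (measurable_of_countable _) (MeasurableSet.of_discrete)]
    have : (Nat.cast ⁻¹' {x : ℕ∞ | x = ⊤} : Set ℕ) = ∅ := by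
      ext n; simp
    rw [this, measure_empty]
  have h2 : ∀ᵐ ω ∂P, ¬ markCount (Pts ω) (D ω) (ball (0 : E d) n ×ˢ univ) = ⊤ := by
    rw [ae_iff]; simpa using h1
  filter_upwards [h2] with ω hω
  rw [markCount_prod_univ] at hω
  exact encard_ne_top_iff.1 hω

end Poisson

end StableMM

namespace StableMM.Light

open Set Topology MeasureTheory ProbabilityTheory Filter
open scoped NNReal ENNReal

/-- The tail `ν([k, ∞))`. -/
noncomputable def tail (ν : PMF ℕ) (k : ℕ) : ℝ := (ν.toMeasure (Ici k)).toReal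

lemma tail_nonneg (ν : PMF ℕ) (k : ℕ) : 0 ≤ tail ν k := ENNReal.toReal_nonneg

lemma tail_Ioi (ν : PMF ℕ) (k : ℕ) : (ν.toMeasure (Ioi k)).toReal = tail ν (k + 1) := by
  unfold tail
  have : (Ioi k : Set ℕ) = Ici (k + 1) := by
    ext m
    simp only [Set.mem_Ioi, Set.mem_Ici]
    omega
  rw [this]

/-- The condition on the law `ν` of the degrees different from one: there are integers `j n` and
`K n` with `K n` nondecreasing and `j n / n → ∞`, `K n / (n j n) → ∞`,
`2ⁿᵈ ν((j n, ∞)) / K n → 0` and `2ⁿᵈ ν([K n, ∞)) / log n → ∞`. -/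
def PercTail (d : ℕ) (ν : PMF ℕ) : Prop :=
  ∃ j K : ℕ → ℕ, Monotone K ∧
    Tendsto (fun n : ℕ => (j n : ℝ) / n) atTop atTop ∧
    Tendsto (fun n : ℕ => (K n : ℝ) / (n * j n)) atTop atTop ∧
    Tendsto (fun n : ℕ => 2 ^ (n * d) * tail ν (j n + 1) / K n) atTop (𝓝 0) ∧
    Tendsto (fun n : ℕ => 2 ^ (n * d) * tail ν (K n) / Real.log n) atTop atTop

end StableMM.Light
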