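import Mathlib

/-!
# Stable multi-matchings of a marked Poisson process: definitions
-/

open MeasureTheory ProbabilityTheory Set Metric
open scoped ENNReal NNReal

namespace StableMM

/-- Euclidean space `ℝ^d`. -/
abbrev E (d : ℕ) := EuclideanSpace ℝ (Fin d)

/-- The number (possibly infinite) of marked points `(x, D x)`, `x ∈ Pts`, that lie in `S`. -/
noncomputable def markCount {d : ℕ} (Pts : Set (E d)) (D : E d → ℕ) (S : Set (E d × ℕ)) : ℕ∞ :=
  {x : E d | x ∈ Pts ∧ (x, D x) ∈ S}.encard

/-- `(Pts, D)` is, under the probability measure `P`, a homogeneous Poisson point process of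
intensity `1` on `ℝ^d` whose points `x` carry independent marks `D x` with law `μ`, independent of
the point set.  This is expressed in the standard way (marking theorem): the random set of marked
points `(x, D x)` is a Poisson process on `ℝ^d × ℕ` with intensity `Lebesgue ⊗ μ`, that is, the
numbers of marked points in pairwise disjoint measurable sets with bounded projection to `ℝ^d` are
independent and Poisson distributed, with mean the `Lebesgue ⊗ μ`-measure of the set. -/
def IsMarkedPoisson {Ω : Type*} [MeasurableSpace Ω] (P : Measure Ω) {d : ℕ}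
    (Pts : Ω → Set (E d)) (D : Ω → E d → ℕ) (μ : PMF ℕ) : Prop :=
  ∀ (n : ℕ) (S : Fin n → Set (E d × ℕ)),
    (∀ i, MeasurableSet (S i)) → (∀ i, Bornology.IsBounded (Prod.fst '' S i)) →
    Pairwise (fun i j => Disjoint (S i) (S j)) →
      iIndepFun (fun i ω => markCount (Pts ω) (D ω) (S i)) P ∧
      ∀ i, HasLaw (fun ω => markCount (Pts ω) (D ω) (S i))
        ((poissonMeasure (((volume : Measure (E d)).prod μ.toMeasure) (S i)).toNNReal).map
          (Nat.cast : ℕ → ℕ∞)) P

/-- `x` is willing to link to `y`: either `x` has a free stub, or `x` has an incident edge longer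
than `|x - y|`. -/
def Willing {d : ℕ} {Pts : Set (E d)} (D : E d → ℕ) (G : SimpleGraph Pts) (x y : Pts) : Prop :=
  (G.neighborSet x).encard < (D x : ℕ∞) ∨
    ∃ z : Pts, G.Adj x z ∧ dist (x : E d) (y : E d) < dist (x : E d) (z : E d)

/-- `G` is a stable multi-matching of the points `Pts` with degree bounds `D`. -/
def IsStableMultiMatching {d : ℕ} (Pts : Set (E d)) (D : E d → ℕ) (G : SimpleGraph Pts) : Prop :=
  (∀ x : Pts, (G.neighborSet x).encard ≤ (D x : ℕ∞)) ∧
    ∀ x y : Pts, x ≠ y → ¬ G.Adj x y → ¬ (Willing D G x y ∧ Willing D G y x)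

end StableMM
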