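import Pool.Agent.Lib.MP_bae357_pr.Defs

/-!
# Existence of stable multi-matchings for locally finite point sets
-/

open MeasureTheory ProbabilityTheory Set Metric Filter
open scoped ENNReal NNReal Nat Topology

namespace StableMM

/-- `x` is saturated within distance `r`. -/
def Full {V : Type*} (δ : V → V → ℝ) (D : V → ℕ) (G : SimpleGraph V) (x : V) (r : ℝ) : Prop :=
  (D x : ℕ∞) ≤ (G.neighborSet x).encard ∧ ∀ z, G.Adj x z → δ x z ≤ r

/-- Greedy construction along a list of pairs sorted by length. -/
lemma greedy {V : Type*} (δ : V → V → ℝ) (hδ : ∀ x y, δ x y = δ y x) (D : V → ℕ) :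
    ∀ (l : List (V × V)), l.Pairwise (fun a b => δ a.1 a.2 ≤ δ b.1 b.2) →
    ∀ G : SimpleGraph V, (∀ x, (G.neighborSet x).encard ≤ (D x : ℕ∞)) →
      (∀ x y, G.Adj x y → ∀ e ∈ l, δ x y ≤ δ e.1 e.2) →
      ∃ G' : SimpleGraph V, G ≤ G' ∧ (∀ x, (G'.neighborSet x).encard ≤ (D x : ℕ∞)) ∧
        (∀ e ∈ l, e.1 ≠ e.2 → G'.Adj e.1 e.2 ∨ Full δ D G' e.1 (δ e.1 e.2) ∨
          Full δ D G' e.2 (δ e.1 e.2)) ∧
        (∀ x, (D x : ℕ∞) ≤ (G.neighborSet x).encard → G'.neighborSet x = G.neighborSet x) := by
  intro l
  induction l with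
  | nil =>
    intro _ G hG _
    exact ⟨G, le_rfl, hG, by simp, fun _ _ => rfl⟩
  | cons e l ih =>
    intro hl G hG hGl
    rw [List.pairwise_cons] at hl
    by_cases hcase : e.1 ≠ e.2 ∧ ¬ G.Adj e.1 e.2 ∧ (G.neighborSet e.1).encard < D e.1 ∧
        (G.neighborSet e.2).encard < D e.2
    · -- add the edge
      obtain ⟨hne, hnadj, h1, h2⟩ := hcase
      let G1 : SimpleGraph V := G ⊔ SimpleGraph.edge e.1 e.2
      have hG1adj : ∀ x y, G1.Adj x y ↔ G.Adj x y ∨ (x = e.1 ∧ y = e.2 ∨ x = e.2 ∧ y = e.1) := by
        intro x y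
        simp only [G1, SimpleGraph.sup_adj, SimpleGraph.edge_adj]
        constructor
        · rintro (h | ⟨h, -⟩)
          · exact Or.inl h
          · right
            rcases h with ⟨h, h'⟩ | ⟨h, h'⟩
            · exact Or.inl ⟨h.symm ▸ rfl, h'.symm ▸ rfl⟩
            · exact Or.inr ⟨h.symm ▸ rfl, h'.symm ▸ rfl⟩
        · rintro (h | h)
          · exact Or.inl h
          · right
            rcases h with ⟨rfl, rfl⟩ | ⟨rfl, rfl⟩
            · exact ⟨Or.inl ⟨rfl, rfl⟩, hne⟩
            · exact ⟨Or.inr ⟨rfl, rfl⟩, hne.symm⟩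
      have hN1 : G1.neighborSet e.1 = insert e.2 (G.neighborSet e.1) := by
        ext z
        simp only [SimpleGraph.mem_neighborSet, hG1adj, mem_insert_iff]
        constructor
        · rintro (h | ⟨-, h⟩ | ⟨h, -⟩)
          · exact Or.inr h
          · exact Or.inl h
          · exact absurd h hne
        · rintro (h | h)
          · exact Or.inr (Or.inl ⟨trivial, h⟩)
          · exact Or.inl h
      have hN2 : G1.neighborSet e.2 = insert e.1 (G.neighborSet e.2) := by
        ext z
        simp only [SimpleGraph.mem_neighborSet, hG1adj, mem_insert_iff]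
        constructor
        · rintro (h | ⟨h, -⟩ | ⟨-, h⟩)
          · exact Or.inr h
          · exact absurd h hne.symm
          · exact Or.inl h
        · rintro (h | h)
          · exact Or.inr (Or.inr ⟨trivial, h⟩)
          · exact Or.inl h
      have hN3 : ∀ x, x ≠ e.1 → x ≠ e.2 → G1.neighborSet x = G.neighborSet x := by
        intro x hx1 hx2
        ext z
        simp only [SimpleGraph.mem_neighborSet, hG1adj]
        constructor
        · rintro (h | ⟨h, -⟩ | ⟨h, -⟩)
          · exact h
          · exact absurd h hx1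
          · exact absurd h hx2
        · intro h
          exact Or.inl h
      have hG1deg : ∀ x, (G1.neighborSet x).encard ≤ (D x : ℕ∞) := by
        intro x
        by_cases hx1 : x = e.1
        · subst hx1
          rw [hN1]
          exact (encard_insert_le _ _).trans (Order.add_one_le_of_lt h1)
        · by_cases hx2 : x = e.2
          · subst hx2
            rw [hN2]
            exact (encard_insert_le _ _).trans (Order.add_one_le_of_lt h2)
          · rw [hN3 x hx1 hx2]
            exact hG x
      obtain ⟨G', hle, hdeg, hst, hfull⟩ := ih hl.2 G1 hG1deg (by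
        intro x y hxy e' he'
        rw [hG1adj] at hxy
        rcases hxy with h | ⟨rfl, rfl⟩ | ⟨rfl, rfl⟩
        · exact hGl x y h e' (List.mem_cons_of_mem _ he')
        · exact hl.1 e' he'
        · rw [hδ]; exact hl.1 e' he')
      refine ⟨G', le_sup_left.trans hle, hdeg, ?_, ?_⟩
      · intro e' he' hne'
        rcases List.mem_cons.1 he' with rfl | he'
        · left
          apply hle
          rw [hG1adj]
          exact Or.inr (Or.inl ⟨rfl, rfl⟩)
        · exact hst e' he' hne'
      · intro x hx
        have hx1 : x ≠ e.1 := by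
          rintro rfl; exact absurd hx (not_le.2 h1)
        have hx2 : x ≠ e.2 := by
          rintro rfl; exact absurd hx (not_le.2 h2)
        rw [hfull x (by rw [hN3 x hx1 hx2]; exact hx), hN3 x hx1 hx2]
    · -- skip the pair
      obtain ⟨G', hle, hdeg, hst, hfull⟩ := ih hl.2 G hG
        (fun x y hxy e' he' => hGl x y hxy e' (List.mem_cons_of_mem _ he'))
      refine ⟨G', hle, hdeg, ?_, hfull⟩
      intro e' he' hne'
      rcases List.mem_cons.1 he' with rfl | he'
      · have hcase' : ¬ G.Adj e'.1 e'.2 → (G.neighborSet e'.1).encard < D e'.1 →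
            ¬ (G.neighborSet e'.2).encard < D e'.2 := by
          intro h1 h2 h3
          exact hcase ⟨hne', h1, h2, h3⟩
        by_cases h1 : G.Adj e'.1 e'.2
        · exact Or.inl (hle h1)
        · by_cases h2 : (G.neighborSet e'.1).encard < D e'.1
          · have h3 := not_lt.1 (hcase' h1 h2)
            right; right
            have h4 := hfull _ h3
            refine ⟨by rw [h4]; exact h3, ?_⟩
            intro z hz
            have hz' : z ∈ G'.neighborSet e'.2 := hz
            rw [h4] at hz'
            exact hGl _ _ hz' e' (List.mem_cons_self)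
          · have h3 := not_lt.1 h2
            right; left
            have h4 := hfull _ h3
            refine ⟨by rw [h4]; exact h3, ?_⟩
            intro z hz
            have hz' : z ∈ G'.neighborSet e'.1 := hz
            rw [h4] at hz'
            exact hGl _ _ hz' e' (List.mem_cons_self)
      · exact hst e' he' hne'

/-- Finite stage. -/
lemma finite_stage {V : Type*} (δ : V → V → ℝ) (hδ : ∀ x y, δ x y = δ y x) (D : V → ℕ)
    (F : Set V) (hF : F.Finite) :
    ∃ G : SimpleGraph V, (∀ x, (G.neighborSet x).encard ≤ (D x : ℕ∞)) ∧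
      ∀ x ∈ F, ∀ y ∈ F, x ≠ y → G.Adj x y ∨ Full δ D G x (δ x y) ∨ Full δ D G y (δ x y) := by
  classical
  let l0 : List (V × V) := (hF.prod hF).toFinset.toList
  let r : V × V → V × V → Prop := fun a b => δ a.1 a.2 ≤ δ b.1 b.2
  let l := l0.insertionSort r
  have htot : Std.Total r := ⟨fun a b => le_total _ _⟩
  have htrans : IsTrans (V × V) r := ⟨fun a b c h1 h2 => le_trans h1 h2⟩
  have hsort : l.Pairwise r := List.pairwise_insertionSort r l0
  obtain ⟨G, -, hdeg, hst, -⟩ := greedy δ hδ D l hsort ⊥ (by intro x; simp) (by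
    intro x y h; exact absurd h (by simp))
  refine ⟨G, hdeg, ?_⟩
  intro x hx y hy hxy
  have hmem : (x, y) ∈ l := by
    rw [List.mem_insertionSort]
    simp [l0, hx, hy]
  exact hst (x, y) hmem hxy

/-- Locally finite point sets have stable multi-matchings, whatever the degrees. -/
theorem exists_stable {d : ℕ} (Pts : Set (E d)) (D : E d → ℕ)
    (hfin : ∀ n : ℕ, (Pts ∩ ball (0 : E d) n).Finite) :
    ∃ G : SimpleGraph Pts, IsStableMultiMatching Pts D G := by
  classical
  let δ : Pts → Pts → ℝ := fun x y => dist (x : E d) (y : E d)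
  let F : ℕ → Set Pts := fun n => {x | (x : E d) ∈ ball (0 : E d) n}
  have hF : ∀ n, (F n).Finite := by
    intro n
    apply Set.Finite.of_finite_image (f := Subtype.val) _ Subtype.val_injective.injOn
    refine (hfin n).subset ?_
    rintro _ ⟨x, hx, rfl⟩
    exact ⟨x.2, hx⟩
  have hG := fun n => finite_stage δ (fun x y => dist_comm _ _) (fun x : Pts => D x) (F n) (hF n)
  choose Gn hdeg hst using hG
  let U : Ultrafilter ℕ := hyperfilter ℕ
  have hU : (U : Filter ℕ) ≤ atTop := by
    rw [← Nat.cofinite_eq_atTop]
    exact hyperfilter_le_cofinite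
  have hmemF : ∀ x : Pts, ∀ᶠ n in (U : Filter ℕ), x ∈ F n := by
    intro x
    apply hU
    obtain ⟨N, hN⟩ := exists_nat_gt ‖(x : E d)‖
    filter_upwards [eventually_ge_atTop N] with n hn
    change (x : E d) ∈ ball (0 : E d) n
    rw [mem_ball_zero_iff]
    exact hN.trans_le (by exact_mod_cast hn)
  let G : SimpleGraph Pts :=
    { Adj := fun x y => ∀ᶠ n in (U : Filter ℕ), (Gn n).Adj x y
      symm := by
        constructor
        intro x y h
        exact h.mono fun n hn => hn.symm
      loopless := by
        constructor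
        intro x h
        obtain ⟨n, hn⟩ := h.exists
        exact (Gn n).loopless.irrefl _ hn }
  have hGadj : ∀ x y, G.Adj x y ↔ ∀ᶠ n in (U : Filter ℕ), (Gn n).Adj x y := fun _ _ => Iff.rfl
  have hGnadj : ∀ x y, ¬ G.Adj x y → ∀ᶠ n in (U : Filter ℕ), ¬ (Gn n).Adj x y := by
    intro x y h
    rw [hGadj] at h
    exact Ultrafilter.eventually_not.2 h
  refine ⟨G, ?_, ?_⟩
  · intro x
    by_contra hlt
    rw [not_le] at hlt
    have h1 : ((D x + 1 : ℕ) : ℕ∞) ≤ (G.neighborSet x).encard := by
      rw [Nat.cast_add, Nat.cast_one]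
      exact Order.add_one_le_of_lt hlt
    obtain ⟨T, hT, hTc⟩ := exists_subset_encard_eq h1
    have hTfin : T.Finite := finite_of_encard_eq_coe hTc
    have h2 : ∀ᶠ n in (U : Filter ℕ), ∀ y ∈ T, (Gn n).Adj x y := by
      rw [Filter.eventually_all_finite hTfin]
      intro y hy
      exact hT hy
    obtain ⟨n, hn⟩ := h2.exists
    have h3 : T ⊆ (Gn n).neighborSet x := fun y hy => hn y hy
    have h4 := (encard_le_encard h3).trans (hdeg n x)
    rw [hTc] at h4
    have h5 : D x + 1 ≤ D x := by exact_mod_cast h4
    omega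
  · -- key claim: if `x` is full in `Gn n` for `U`-many `n` then it is not willing in `G`
    have hkey : ∀ x y : Pts, (∀ᶠ n in (U : Filter ℕ), Full δ (fun x : Pts => D x) (Gn n) x (δ x y)) →
        ¬ Willing D G x y := by
      intro x y h
      let W : Set Pts := {z | dist (x : E d) (z : E d) ≤ δ x y}
      have hW : W.Finite := by
        obtain ⟨N, hN⟩ := exists_nat_gt (‖(x : E d)‖ + δ x y)
        refine (hF N).subset ?_
        intro z hz
        change (z : E d) ∈ ball (0 : E d) N
        rw [mem_ball_zero_iff]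
        have hz' : dist (x : E d) (z : E d) ≤ δ x y := hz
        have : ‖(z : E d)‖ ≤ ‖(x : E d)‖ + dist (x : E d) (z : E d) := by
          rw [dist_eq_norm]
          calc ‖(z : E d)‖ = ‖(x : E d) - ((x : E d) - (z : E d))‖ := by simp
            _ ≤ _ := norm_sub_le _ _
        linarith
      have h1 : ∀ᶠ n in (U : Filter ℕ), ∃ T ∈ {T : Set Pts | T ⊆ W}, (Gn n).neighborSet x = T := by
        filter_upwards [h] with n hn
        exact ⟨_, fun z hz => hn.2 z hz, rfl⟩
      rw [Ultrafilter.eventually_exists_mem_iff hW.finite_subsets] at h1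
      obtain ⟨T, hTW, hT⟩ := h1
      have hGT : G.neighborSet x = T := by
        ext z
        rw [SimpleGraph.mem_neighborSet]
        constructor
        · intro hz
          rw [hGadj] at hz
          obtain ⟨n, hn1, hn2⟩ := (hz.and hT).exists
          rw [← hn2]; exact hn1
        · intro hz
          rw [hGadj]
          filter_upwards [hT] with n hn
          have : z ∈ (Gn n).neighborSet x := by rw [hn]; exact hz
          exact this
      obtain ⟨n, hn1, hn2⟩ := (h.and hT).exists
      rintro (hw | ⟨z, hz1, hz2⟩)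
      · have := hn1.1
        rw [hn2, ← hGT] at this
        exact absurd this (not_le.2 hw)
      · have hz3 : z ∈ G.neighborSet x := hz1
        rw [hGT] at hz3
        exact absurd (hTW hz3) (not_le.2 hz2)
    rintro x y hxy hnadj ⟨hw1, hw2⟩
    have h1 : ∀ᶠ n in (U : Filter ℕ), Full δ (fun x : Pts => D x) (Gn n) x (δ x y) ∨
        Full δ (fun x : Pts => D x) (Gn n) y (δ x y) := by
      filter_upwards [hmemF x, hmemF y, hGnadj x y hnadj] with n hx hy hn
      rcases hst n x hx y hy hxy with h | h
      · exact absurd h hn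
      · exact h
    rcases Ultrafilter.eventually_or.1 h1 with h | h
    · exact hkey x y h hw1
    · refine hkey y x ?_ hw2
      have : δ y x = δ x y := dist_comm _ _
      rw [this]
      exact h

end StableMM
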