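import Pool.Agent.Lib.MP_bae357_pr.Defs

/-!
# Construction of a Poisson process with independent marks
-/

open MeasureTheory ProbabilityTheory Set Metric Filter
open scoped ENNReal NNReal Nat Topology

namespace StableMM

section Block

variable {X : Type*} [MeasurableSpace X]

/-- number of the first `w.1` points of the sequence `w.2` lying in `S`. -/
noncomputable def cnt (S : Set X) (w : ℕ × (ℕ → X)) : ℕ :=
  ∑ i ∈ Finset.range w.1, S.indicator (fun _ => 1) (w.2 i)

lemma measurable_cnt {S : Set X} (hS : MeasurableSet S) : Measurable (cnt S) := by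
  apply measurable_from_prod_countable_right
  intro n
  change Measurable (fun y : ℕ → X => ∑ i ∈ Finset.range n, S.indicator (fun _ => 1) (y i))
  refine Finset.measurable_sum _ fun i _ => ?_
  exact (measurable_const.indicator hS).comp (measurable_pi_apply i)

/-- block law -/
noncomputable def blk (r : ℝ≥0) (ρ : Measure X) [IsProbabilityMeasure ρ] :
    Measure (ℕ × (ℕ → X)) :=
  (poissonMeasure r).prod (Measure.infinitePi (fun _ : ℕ => ρ))

instance (r : ℝ≥0) (ρ : Measure X) [IsProbabilityMeasure ρ] : IsProbabilityMeasure (blk r ρ) := by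
  unfold blk; infer_instance

lemma integral_inner (ρ : Measure X) [IsProbabilityMeasure ρ] (g : X → ℂ) (hg : Measurable g)
    (n : ℕ) :
    ∫ y, ∏ i ∈ Finset.range n, g (y i) ∂(Measure.infinitePi (fun _ : ℕ => ρ)) =
      (∫ x, g x ∂ρ) ^ n := by
  have hind : iIndepFun (fun (i : ℕ) (y : ℕ → X) => y i) (Measure.infinitePi (fun _ : ℕ => ρ)) :=
    iIndepFun_infinitePi (P := fun _ : ℕ => ρ) (X := fun (i : ℕ) (x : X) => x)
      (fun i => measurable_id)
  have hind' : iIndepFun (fun (i : Fin n) (y : ℕ → X) => y i)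
      (Measure.infinitePi (fun _ : ℕ => ρ)) := hind.precomp Fin.val_injective
  have h1 := hind'.integral_fun_prod_comp (f := fun _ => g)
    (fun i => (measurable_pi_apply _).aemeasurable) (fun i => hg.aestronglyMeasurable)
  have h2 : ∀ y : ℕ → X, ∏ i ∈ Finset.range n, g (y i) = ∏ i : Fin n, g (y i) := by
    intro y
    rw [Finset.prod_range]
  simp_rw [h2]
  rw [h1]
  have h3 : ∀ i : Fin n, ∫ y : ℕ → X, g (y i) ∂(Measure.infinitePi (fun _ : ℕ => ρ)) =
      ∫ x, g x ∂ρ := by
    intro i
    have hmp := (measurePreserving_eval_infinitePi (fun _ : ℕ => ρ) (i : ℕ))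
    calc ∫ y : ℕ → X, g (y i) ∂(Measure.infinitePi (fun _ : ℕ => ρ))
        = ∫ x, g x ∂((Measure.infinitePi (fun _ : ℕ => ρ)).map (Function.eval (i : ℕ))) :=
          (integral_map (measurable_pi_apply _).aemeasurable hg.aestronglyMeasurable).symm
      _ = _ := by rw [hmp.map_eq]
  simp [h3]

lemma integral_block (r : ℝ≥0) (ρ : Measure X) [IsProbabilityMeasure ρ] (g : X → ℂ)
    (hg : Measurable g) (hb : ∀ x, ‖g x‖ ≤ 1) :
    ∫ w, ∏ i ∈ Finset.range w.1, g (w.2 i) ∂(blk r ρ) =
      Complex.exp (r * ((∫ x, g x ∂ρ) - 1)) := by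
  have hmeas : Measurable (fun w : ℕ × (ℕ → X) => ∏ i ∈ Finset.range w.1, g (w.2 i)) := by
    apply measurable_from_prod_countable_right
    intro n
    change Measurable (fun y : ℕ → X => ∏ i ∈ Finset.range n, g (y i))
    exact Finset.measurable_prod _ fun i _ => hg.comp (measurable_pi_apply i)
  have hint : Integrable (fun w : ℕ × (ℕ → X) => ∏ i ∈ Finset.range w.1, g (w.2 i))
      ((poissonMeasure r).prod (Measure.infinitePi (fun _ : ℕ => ρ))) := by
    refine Integrable.of_bound hmeas.aestronglyMeasurable 1 (ae_of_all _ fun w => ?_)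
    rw [norm_prod]
    exact Finset.prod_le_one (fun _ _ => norm_nonneg _) (fun i _ => hb _)
  unfold blk
  rw [integral_prod _ hint]
  simp only
  simp_rw [integral_inner ρ g hg]
  rw [integral_poissonMeasure]
  set z := ∫ x, g x ∂ρ with hz
  calc ∑' n : ℕ, (Real.exp (-r) * r ^ n / n ! : ℝ) • z ^ n
      = ∑' n : ℕ, (Real.exp (-r) : ℂ) * ((r * z) ^ n / n !) := by
        congr with n
        rw [Complex.real_smul]
        push_cast
        ring
    _ = (Real.exp (-r)) * ∑' n : ℕ, ((r * z) ^ n / n !) := tsum_mul_left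
    _ = (Real.exp (-r)) * Complex.exp (r * z) := by
        rw [(NormedSpace.expSeries_div_hasSum_exp ((r : ℂ) * z)).tsum_eq, Complex.exp_eq_exp_ℂ]
    _ = Complex.exp (r * (z - 1)) := by
        push_cast
        rw [← Complex.exp_add]
        ring_nf

lemma integral_prod_infinitePi {W : Type*} [MeasurableSpace W] (Q : ℕ → Measure W)
    [∀ j, IsProbabilityMeasure (Q j)] (F : ℕ → W → ℂ) (hF : ∀ j, Measurable (F j)) (J : ℕ) :
    ∫ ω, ∏ j ∈ Finset.range J, F j (ω j) ∂(Measure.infinitePi Q) =
      ∏ j ∈ Finset.range J, ∫ w, F j w ∂(Q j) := by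
  have hind : iIndepFun (fun (i : ℕ) (y : ℕ → W) => y i) (Measure.infinitePi Q) :=
    iIndepFun_infinitePi (P := Q) (X := fun (i : ℕ) (x : W) => x)
      (fun i => measurable_id)
  have hind' : iIndepFun (fun (i : Fin J) (y : ℕ → W) => y i)
      (Measure.infinitePi Q) := hind.precomp Fin.val_injective
  have h1 := hind'.integral_fun_prod_comp (f := fun (j : Fin J) => F j)
    (fun i => (measurable_pi_apply _).aemeasurable) (fun i => (hF i).aestronglyMeasurable)
  have h2 : ∀ y : ℕ → W, ∏ i ∈ Finset.range J, F i (y i) = ∏ i : Fin J, F i (y i) := by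
    intro y
    rw [Finset.prod_range]
  simp_rw [h2]
  rw [h1, Finset.prod_range]
  refine Finset.prod_congr rfl fun i _ => ?_
  have hmp := (measurePreserving_eval_infinitePi Q (i : ℕ))
  calc ∫ y : ℕ → W, F i (y i) ∂(Measure.infinitePi Q)
      = ∫ x, F i x ∂((Measure.infinitePi Q).map (Function.eval (i : ℕ))) :=
        (integral_map (measurable_pi_apply _).aemeasurable (hF i).aestronglyMeasurable).symm
    _ = _ := by rw [hmp.map_eq]

/-- total count in the first `J` blocks -/
noncomputable def total (J : ℕ) (S : Set X) (ω : ℕ → ℕ × (ℕ → X)) : ℕ :=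
  ∑ j ∈ Finset.range J, cnt S (ω j)

lemma measurable_total (J : ℕ) {S : Set X} (hS : MeasurableSet S) : Measurable (total J S) := by
  refine Finset.measurable_sum _ fun j _ => ?_
  exact (measurable_cnt hS).comp (measurable_pi_apply j)

/-- the phase function -/
noncomputable def phase {n : ℕ} (S : Fin n → Set X) (t : Fin n → ℝ) (x : X) : ℂ :=
  Complex.exp ((∑ l, t l * (S l).indicator (fun _ => (1 : ℝ)) x : ℝ) * Complex.I)

lemma measurable_phase {n : ℕ} (S : Fin n → Set X) (hS : ∀ l, MeasurableSet (S l))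
    (t : Fin n → ℝ) : Measurable (phase S t) := by
  unfold phase
  apply Complex.measurable_exp.comp
  apply Measurable.mul_const
  apply Complex.measurable_ofReal.comp
  refine Finset.measurable_sum _ fun l _ => ?_
  exact (measurable_const.indicator (hS l)).const_mul _

omit [MeasurableSpace X] in
lemma norm_phase {n : ℕ} (S : Fin n → Set X) (t : Fin n → ℝ) (x : X) : ‖phase S t x‖ ≤ 1 := by
  unfold phase
  rw [Complex.norm_exp_ofReal_mul_I]

omit [MeasurableSpace X] in
lemma phase_eq {n : ℕ} (S : Fin n → Set X)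
    (hdis : Pairwise (fun i j => Disjoint (S i) (S j))) (t : Fin n → ℝ) (x : X) :
    phase S t x = 1 + ∑ l, (S l).indicator (fun _ => Complex.exp (t l * Complex.I) - 1) x := by
  by_cases hx : ∃ l, x ∈ S l
  · obtain ⟨l, hl⟩ := hx
    have hne : ∀ l', l' ≠ l → x ∉ S l' := by
      intro l' hl' hx'
      exact (Set.disjoint_left.1 (hdis hl')) hx' hl
    unfold phase
    rw [Finset.sum_eq_single l, Finset.sum_eq_single l, indicator_of_mem hl, indicator_of_mem hl]
    · simp
    · intro l' _ hl'
      rw [indicator_of_notMem (hne l' hl')]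
    · simp
    · intro l' _ hl'
      rw [indicator_of_notMem (hne l' hl')]; simp
    · simp
  · push Not at hx
    unfold phase
    rw [Finset.sum_eq_zero, Finset.sum_eq_zero]
    · simp
    · intro l _
      rw [indicator_of_notMem (hx l)]
    · intro l _
      rw [indicator_of_notMem (hx l)]; simp

lemma integral_phase {n : ℕ} (S : Fin n → Set X) (hS : ∀ l, MeasurableSet (S l))
    (hdis : Pairwise (fun i j => Disjoint (S i) (S j))) (t : Fin n → ℝ)
    (ρ : Measure X) [IsProbabilityMeasure ρ] :
    ∫ x, phase S t x ∂ρ = 1 + ∑ l, (ρ.real (S l) : ℂ) * (Complex.exp (t l * Complex.I) - 1) := by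
  simp_rw [phase_eq S hdis t]
  rw [integral_add (integrable_const _), integral_finsetSum]
  · congr 1
    · simp
    · refine Finset.sum_congr rfl fun l _ => ?_
      rw [integral_indicator_const _ (hS l), Complex.real_smul]
  · intro l _
    exact (integrable_const _).indicator (hS l)
  · refine integrable_finsetSum _ fun l _ => ?_
    exact (integrable_const _).indicator (hS l)

omit [MeasurableSpace X] in
lemma exp_total {n : ℕ} (S : Fin n → Set X) (t : Fin n → ℝ) (J : ℕ) (ω : ℕ → ℕ × (ℕ → X)) :
    Complex.exp ((∑ l, (total J (S l) ω : ℝ) * t l : ℝ) * Complex.I) =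
      ∏ j ∈ Finset.range J, ∏ i ∈ Finset.range (ω j).1, phase S t ((ω j).2 i) := by
  unfold phase
  simp_rw [← Complex.exp_sum, ← Finset.sum_mul]
  congr 2
  have hcast : ∀ (l : Fin n) (x : X), (((S l).indicator (fun _ => 1) x : ℕ) : ℝ) =
      (S l).indicator (fun _ => (1 : ℝ)) x := by
    intro l x
    by_cases hx : x ∈ S l
    · simp [indicator_of_mem hx]
    · simp [indicator_of_notMem hx]
  have hreal : (∑ l, (total J (S l) ω : ℝ) * t l) = ∑ j ∈ Finset.range J,
      ∑ i ∈ Finset.range (ω j).1, ∑ l, t l * (S l).indicator (fun _ => (1 : ℝ)) ((ω j).2 i) := by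
    unfold total cnt
    push_cast
    simp_rw [hcast, Finset.sum_mul]
    rw [Finset.sum_comm]
    refine Finset.sum_congr rfl fun j _ => ?_
    rw [Finset.sum_comm]
    refine Finset.sum_congr rfl fun i _ => ?_
    refine Finset.sum_congr rfl fun l _ => ?_
    ring
  rw [hreal]
  push_cast
  rfl

/-- joint characteristic function of the counts -/
lemma charFun_counts {n : ℕ} (S : Fin n → Set X) (hS : ∀ l, MeasurableSet (S l))
    (hdis : Pairwise (fun i j => Disjoint (S i) (S j))) (t : Fin n → ℝ) (J : ℕ)
    (r : ℕ → ℝ≥0) (ρ : ℕ → Measure X) [∀ j, IsProbabilityMeasure (ρ j)] :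
    ∫ ω, Complex.exp ((∑ l, (total J (S l) ω : ℝ) * t l : ℝ) * Complex.I)
        ∂(Measure.infinitePi (fun j => blk (r j) (ρ j))) =
      ∏ l, Complex.exp (((∑ j ∈ Finset.range J, (r j : ℝ) * (ρ j).real (S l) : ℝ) : ℂ) *
        (Complex.exp (t l * Complex.I) - 1)) := by
  simp_rw [exp_total S t J]
  have hF : Measurable (fun w : ℕ × (ℕ → X) => ∏ i ∈ Finset.range w.1, phase S t (w.2 i)) := by
    apply measurable_from_prod_countable_right
    intro n
    change Measurable (fun y : ℕ → X => ∏ i ∈ Finset.range n, phase S t (y i))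
    exact Finset.measurable_prod _ fun i _ => (measurable_phase S hS t).comp (measurable_pi_apply i)
  rw [integral_prod_infinitePi (fun j => blk (r j) (ρ j))
    (fun _ w => ∏ i ∈ Finset.range w.1, phase S t (w.2 i)) (fun _ => hF) J]
  simp_rw [fun j => integral_block (r j) (ρ j) (phase S t) (measurable_phase S hS t)
    (norm_phase S t), integral_phase S hS hdis t]
  rw [← Complex.exp_sum, ← Complex.exp_sum]
  congr 1
  push_cast
  simp_rw [Finset.sum_mul]
  rw [Finset.sum_comm]
  refine Finset.sum_congr rfl fun j _ => ?_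
  rw [add_sub_cancel_left, Finset.mul_sum]
  refine Finset.sum_congr rfl fun l _ => ?_
  ring

lemma charFun_single (S : Set X) (hS : MeasurableSet S) (t : ℝ) (J : ℕ)
    (r : ℕ → ℝ≥0) (ρ : ℕ → Measure X) [∀ j, IsProbabilityMeasure (ρ j)] :
    charFun ((Measure.infinitePi (fun j => blk (r j) (ρ j))).map
      (fun ω => (total J S ω : ℝ))) t =
      Complex.exp (((∑ j ∈ Finset.range J, (r j : ℝ) * (ρ j).real S : ℝ) : ℂ) *
        (Complex.exp (t * Complex.I) - 1)) := by
  rw [charFun_apply_real, integral_map]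
  · have := charFun_counts (n := 1) (fun _ => S) (fun _ => hS)
      (by intro i j hij; exact absurd (Subsingleton.elim i j) hij) (fun _ => t) J r ρ
    simp only [Fin.sum_univ_one, Fin.prod_univ_one] at this
    rw [← this]
    congr with ω
    push_cast
    ring_nf
  · exact ((measurable_from_nat (f := fun n : ℕ => (n : ℝ))).comp (measurable_total J hS)).aemeasurable
  · exact (by fun_prop : Measurable (fun x : ℝ => Complex.exp (t * x * Complex.I))).aestronglyMeasurable

lemma hasLaw_total (S : Set X) (hS : MeasurableSet S) (J : ℕ)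
    (r : ℕ → ℝ≥0) (ρ : ℕ → Measure X) [∀ j, IsProbabilityMeasure (ρ j)] :
    HasLaw (total J S) (poissonMeasure (∑ j ∈ Finset.range J, r j * (ρ j S).toNNReal))
      (Measure.infinitePi (fun j => blk (r j) (ρ j))) := by
  refine ⟨(measurable_total J hS).aemeasurable, ?_⟩
  apply (MeasurableEmbedding.natCast (α := ℝ)).map_injective
  rw [Measure.map_map (measurable_from_nat) (measurable_total J hS)]
  apply Measure.ext_of_charFun
  ext t
  rw [charFun_map_cast_poissonMeasure]
  change charFun ((Measure.infinitePi (fun j => blk (r j) (ρ j))).map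
      (fun ω => (total J S ω : ℝ))) t = _
  rw [charFun_single S hS t J r ρ]
  congr 2
  push_cast
  refine Finset.sum_congr rfl fun j _ => ?_
  congr 1

lemma iIndepFun_total {n : ℕ} (S : Fin n → Set X) (hS : ∀ l, MeasurableSet (S l))
    (hdis : Pairwise (fun i j => Disjoint (S i) (S j))) (J : ℕ)
    (r : ℕ → ℝ≥0) (ρ : ℕ → Measure X) [∀ j, IsProbabilityMeasure (ρ j)] :
    iIndepFun (fun l => total J (S l)) (Measure.infinitePi (fun j => blk (r j) (ρ j))) := by
  have hm : ∀ l, Measurable (fun ω => (total J (S l) ω : ℝ)) := fun l =>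
    (measurable_from_nat (f := fun n : ℕ => (n : ℝ))).comp (measurable_total J (hS l))
  have h1 : iIndepFun (fun l ω => (total J (S l) ω : ℝ))
      (Measure.infinitePi (fun j => blk (r j) (ρ j))) := by
    rw [iIndepFun_iff_charFun_pi (fun l => (hm l).aemeasurable)]
    intro t
    rw [charFun_apply, integral_map]
    · simp_rw [charFun_single (S _) (hS _) (t _) J r ρ]
      rw [← charFun_counts S hS hdis t J r ρ]
      congr with ω
      congr 3
      rw [PiLp.inner_apply]
      refine Finset.sum_congr rfl fun l _ => ?_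
      simp [mul_comm]
    · apply Measurable.aemeasurable
      fun_prop
    · apply Measurable.aestronglyMeasurable
      fun_prop
  have h2 := h1.comp (fun _ => Nat.floor) (fun _ => Nat.measurable_floor)
  convert h2 using 1
  ext l ω
  simp

end Block

end StableMM
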