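import Pool.Agent.Lib.MP_bae357_pr.Poisson

/-!
# Existence of a marked Poisson process
-/

open MeasureTheory ProbabilityTheory Set Metric Filter
open scoped ENNReal NNReal Nat Topology

namespace StableMM

/-- spherical shells -/
def shell (d j : ℕ) : Set (E d) := ball (0 : E d) (j + 1) \ ball (0 : E d) j

lemma measurableSet_shell (d j : ℕ) : MeasurableSet (shell d j) :=
  measurableSet_ball.diff measurableSet_ball

lemma volume_shell_ne_top (d j : ℕ) : volume (shell d j) ≠ ∞ :=
  ne_top_of_le_ne_top (measure_ball_lt_top (x := (0 : E d)) (r := j + 1)).ne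
    (measure_mono sdiff_subset)

lemma volume_shell_ne_zero (d j : ℕ) (hd : 1 ≤ d) : volume (shell d j) ≠ 0 := by
  let e : E d := EuclideanSpace.single (⟨0, hd⟩ : Fin d) (1 : ℝ)
  have he : ‖e‖ = 1 := by simp [e]
  have hsub : ball (((j : ℝ) + 1 / 2) • e) (1 / 2) ⊆ shell d j := by
    intro x hx
    rw [mem_ball, dist_eq_norm] at hx
    have h1 : ‖((j : ℝ) + 1 / 2) • e‖ = j + 1 / 2 := by
      rw [norm_smul, he, mul_one, Real.norm_eq_abs, abs_of_nonneg (by positivity)]
    constructor
    · rw [mem_ball_zero_iff]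
      have : ‖x‖ ≤ ‖x - ((j : ℝ) + 1 / 2) • e‖ + ‖((j : ℝ) + 1 / 2) • e‖ := by
        calc ‖x‖ = ‖(x - ((j : ℝ) + 1 / 2) • e) + ((j : ℝ) + 1 / 2) • e‖ := by simp
          _ ≤ _ := norm_add_le _ _
      linarith
    · rw [mem_ball_zero_iff, not_lt]
      have : ‖((j : ℝ) + 1 / 2) • e‖ ≤ ‖x - ((j : ℝ) + 1 / 2) • e‖ + ‖x‖ := by
        calc ‖((j : ℝ) + 1 / 2) • e‖ = ‖-(x - ((j : ℝ) + 1 / 2) • e) + x‖ := by
              congr 1; abel
          _ ≤ ‖-(x - ((j : ℝ) + 1 / 2) • e)‖ + ‖x‖ := norm_add_le _ _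
          _ = _ := by rw [norm_neg]
      linarith
  have hpos : 0 < volume (ball (((j : ℝ) + 1 / 2) • e) (1 / 2)) :=
    measure_ball_pos volume _ (by norm_num)
  exact (hpos.trans_le (measure_mono hsub)).ne'

lemma mem_shell_ball {d j J : ℕ} {x : E d} (h1 : x ∈ shell d j) (h2 : x ∈ ball (0 : E d) J) :
    j < J := by
  have h3 := h1.2
  rw [mem_ball_zero_iff, not_lt] at h3
  rw [mem_ball_zero_iff] at h2
  exact_mod_cast h3.trans_lt h2

lemma shell_disjoint {d j k : ℕ} {x : E d} (h1 : x ∈ shell d j) (h2 : x ∈ shell d k) : j = k := by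
  have h3 : j < k + 1 := mem_shell_ball h1 (by simpa using h2.1)
  have h4 : k < j + 1 := mem_shell_ball h2 (by simpa using h1.1)
  omega

/-- law of a marked point in a shell -/
noncomputable def rho (d : ℕ) (μ : PMF ℕ) (j : ℕ) : Measure (E d × ℕ) :=
  (ProbabilityTheory.cond (volume : Measure (E d)) (shell d j)).prod μ.toMeasure

lemma isProb_rho {d : ℕ} (hd : 1 ≤ d) (μ : PMF ℕ) (j : ℕ) : IsProbabilityMeasure (rho d μ j) := by
  have : IsProbabilityMeasure (ProbabilityTheory.cond (volume : Measure (E d)) (shell d j)) :=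
    cond_isProbabilityMeasure_of_finite (volume_shell_ne_zero d j hd) (volume_shell_ne_top d j)
  unfold rho
  infer_instance

/-- rate -/
noncomputable def rate (d j : ℕ) : ℝ≥0 := (volume (shell d j)).toNNReal

lemma rate_mul_rho {d : ℕ} (hd : 1 ≤ d) (μ : PMF ℕ) (j : ℕ) (S : Set (E d × ℕ))
    (hS : MeasurableSet S) :
    (rate d j : ℝ≥0∞) * rho d μ j S =
      ((volume : Measure (E d)).prod μ.toMeasure) (S ∩ (shell d j ×ˢ univ)) := by
  unfold rate rho ProbabilityTheory.cond
  rw [ENNReal.coe_toNNReal (volume_shell_ne_top d j), Measure.prod_smul_left,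
    Measure.smul_apply, smul_eq_mul, ← mul_assoc,
    ENNReal.mul_inv_cancel (volume_shell_ne_zero d j hd) (volume_shell_ne_top d j), one_mul]
  have h1 : ((volume : Measure (E d)).restrict (shell d j)).prod μ.toMeasure =
      ((volume : Measure (E d)).prod μ.toMeasure).restrict (shell d j ×ˢ univ) := by
    rw [← Measure.prod_restrict, Measure.restrict_univ]
  rw [h1, Measure.restrict_apply hS]

lemma sum_rate_mul_rho {d : ℕ} (hd : 1 ≤ d) (μ : PMF ℕ) (J : ℕ) (S : Set (E d × ℕ))
    (hS : MeasurableSet S) :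
    ∑ j ∈ Finset.range J, (rate d j : ℝ≥0∞) * rho d μ j S =
      ((volume : Measure (E d)).prod μ.toMeasure) (S ∩ (ball (0 : E d) J ×ˢ univ)) := by
  induction J with
  | zero => simp
  | succ J ih =>
    rw [Finset.sum_range_succ, ih, rate_mul_rho hd μ J S hS, ← measure_union _ _]
    · congr 1
      rw [← inter_union_distrib_left, ← union_prod]
      congr 2
      unfold shell
      rw [union_sdiff_self, union_eq_right.2]
      · push_cast; rfl
      · apply ball_subset_ball; linarith
    · rw [Set.disjoint_left]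
      rintro x ⟨-, hx⟩ ⟨-, hx'⟩
      exact hx'.1.2 hx.1
    · exact hS.inter ((measurableSet_shell d J).prod MeasurableSet.univ)

/-- the sample space -/
abbrev Om (d : ℕ) := ℕ → ℕ × (ℕ → E d × ℕ)

/-- the marked point with index `q` -/
def mp {d : ℕ} (ω : Om d) (q : (_ : ℕ) × ℕ) : E d × ℕ := (ω q.1).2 q.2

/-- the random point set -/
def pts {d : ℕ} (ω : Om d) : Set (E d) :=
  {x | ∃ q : (_ : ℕ) × ℕ, q.2 < (ω q.1).1 ∧ (mp ω q).1 = x}

open Classical in
/-- the random marks -/
noncomputable def deg {d : ℕ} (ω : Om d) (x : E d) : ℕ :=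
  if h : ∃ q : (_ : ℕ) × ℕ, q.2 < (ω q.1).1 ∧ (mp ω q).1 = x then (mp ω h.choose).2 else 0

/-- the good event -/
def Good {d : ℕ} (ω : Om d) : Prop :=
  (∀ j i, ((ω j).2 i).1 ∈ shell d j) ∧ ∀ j i i', i ≠ i' → ((ω j).2 i).1 ≠ ((ω j).2 i').1

lemma Good.injective {d : ℕ} {ω : Om d} (h : Good ω) :
    Function.Injective (fun q : (_ : ℕ) × ℕ => (mp ω q).1) := by
  rintro ⟨j, i⟩ ⟨j', i'⟩ hq
  simp only [mp] at hq
  have hj : j = j' := by
    apply shell_disjoint (h.1 j i)
    rw [hq]
    exact h.1 j' i'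
  subst hj
  by_contra hne
  have : i ≠ i' := by
    rintro rfl; exact hne rfl
  exact h.2 j i i' this hq

lemma Good.deg_eq {d : ℕ} {ω : Om d} (h : Good ω) (q : (_ : ℕ) × ℕ) (hq : q.2 < (ω q.1).1) :
    deg ω (mp ω q).1 = (mp ω q).2 := by
  have hex : ∃ q' : (_ : ℕ) × ℕ, q'.2 < (ω q'.1).1 ∧ (mp ω q').1 = (mp ω q).1 := ⟨q, hq, rfl⟩
  unfold deg
  rw [dif_pos hex]
  have := h.injective hex.choose_spec.2
  rw [this]

lemma Good.markCount_eq {d : ℕ} {ω : Om d} (h : Good ω) (S : Set (E d × ℕ)) (J : ℕ)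
    (hS : Prod.fst '' S ⊆ ball (0 : E d) J) :
    markCount (pts ω) (deg ω) S = (total J S ω : ℕ) := by
  classical
  have h1 : {x : E d | x ∈ pts ω ∧ (x, deg ω x) ∈ S} =
      (fun q : (_ : ℕ) × ℕ => (mp ω q).1) ''
        (((Finset.range J).sigma (fun j => (Finset.range (ω j).1).filter
          (fun i => (ω j).2 i ∈ S)) : Finset ((_ : ℕ) × ℕ)) : Set ((_ : ℕ) × ℕ)) := by
    ext x
    constructor
    · rintro ⟨⟨q, hq, rfl⟩, hxS⟩
      rw [h.deg_eq q hq] at hxS
      refine ⟨q, ?_, rfl⟩
      have hJ : q.1 < J := by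
        apply mem_shell_ball (h.1 q.1 q.2)
        apply hS
        exact ⟨_, hxS, rfl⟩
      simp only [Finset.coe_sigma, Set.mem_sigma_iff, Finset.coe_range, Set.mem_Iio,
        Finset.coe_filter, Finset.mem_range, Set.mem_ofPred_eq]
      exact ⟨hJ, hq, hxS⟩
    · rintro ⟨q, hq, rfl⟩
      simp only [Finset.coe_sigma, Set.mem_sigma_iff, Finset.coe_range, Set.mem_Iio,
        Finset.coe_filter, Finset.mem_range, Set.mem_ofPred_eq] at hq
      refine ⟨⟨q, hq.2.1, rfl⟩, ?_⟩
      simp only
      rw [h.deg_eq q hq.2.1]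
      exact hq.2.2
  unfold markCount
  rw [h1, h.injective.encard_image, encard_coe_eq_coe_finsetCard, Finset.card_sigma]
  congr 1
  unfold total cnt
  refine Finset.sum_congr rfl fun j _ => ?_
  rw [Finset.card_filter]
  refine Finset.sum_congr rfl fun i _ => ?_
  simp [Set.indicator_apply]

/-- Poisson point processes of intensity one on `ℝ^d` with independent marks of law `μ` exist. -/
theorem exists_isMarkedPoisson {d : ℕ} (hd : 1 ≤ d) (μ : PMF ℕ) :
    ∃ P : Measure (Om d), IsProbabilityMeasure P ∧ IsMarkedPoisson P pts deg μ := by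
  have hprob : ∀ j, IsProbabilityMeasure (rho d μ j) := isProb_rho hd μ
  let Q : ℕ → Measure (ℕ × (ℕ → E d × ℕ)) := fun j => blk (rate d j) (rho d μ j)
  let P : Measure (Om d) := Measure.infinitePi Q
  have hP : IsProbabilityMeasure P := by
    change IsProbabilityMeasure (Measure.infinitePi Q); infer_instance
  have hne : Nonempty (Fin d) := ⟨⟨0, hd⟩⟩
  have hnt : Nontrivial (E d) := by
    refine ⟨⟨EuclideanSpace.single (⟨0, hd⟩ : Fin d) (1 : ℝ), 0, ?_⟩⟩
    intro h
    have := congrArg norm h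
    simp at this
  -- the coordinates
  have hmp1 : ∀ j, MeasurePreserving (Function.eval j) P (Q j) := fun j =>
    measurePreserving_eval_infinitePi Q j
  have hmp2 : ∀ j, MeasurePreserving (Prod.snd : ℕ × (ℕ → E d × ℕ) → _) (Q j)
      (Measure.infinitePi (fun _ : ℕ => rho d μ j)) := fun j => measurePreserving_snd
  have hmp12 : ∀ j, MeasurePreserving (fun ω : Om d => (ω j).2) P
      (Measure.infinitePi (fun _ : ℕ => rho d μ j)) := fun j => (hmp2 j).comp (hmp1 j)
  have hgood : ∀ᵐ ω ∂P, Good ω := by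
    have h1 : ∀ᵐ ω ∂P, ∀ j i, ((ω j).2 i).1 ∈ shell d j := by
      rw [ae_all_iff]; intro j
      rw [ae_all_iff]; intro i
      have h2 : MeasurePreserving (fun ω : Om d => (ω j).2 i) P (rho d μ j) :=
        (measurePreserving_eval_infinitePi (fun _ : ℕ => rho d μ j) i).comp (hmp12 j)
      have h3 : ∀ᵐ y ∂(rho d μ j), y.1 ∈ shell d j := by
        rw [ae_iff]
        have : {y : E d × ℕ | ¬ y.1 ∈ shell d j} = (shell d j)ᶜ ×ˢ univ := by
          ext y; simp
        rw [this, rho, Measure.prod_prod]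
        have h4 : ProbabilityTheory.cond (volume : Measure (E d)) (shell d j) (shell d j)ᶜ = 0 := by
          unfold ProbabilityTheory.cond
          rw [Measure.smul_apply, Measure.restrict_apply (measurableSet_shell d j).compl]
          simp
        rw [h4, zero_mul]
      exact h2.quasiMeasurePreserving.ae h3
    have h2 : ∀ᵐ ω ∂P, ∀ j i i', i ≠ i' → ((ω j).2 i).1 ≠ ((ω j).2 i').1 := by
      rw [ae_all_iff]; intro j
      rw [ae_all_iff]; intro i
      rw [ae_all_iff]; intro i'
      by_cases hii : i = i'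
      · exact ae_of_all _ fun ω h => absurd hii h
      · have hpair : MeasurePreserving (fun y : ℕ → E d × ℕ => (y i, y i'))
            (Measure.infinitePi (fun _ : ℕ => rho d μ j)) ((rho d μ j).prod (rho d μ j)) := by
          refine ⟨by fun_prop, ?_⟩
          exact Measure.infinitePi_map_eval_prod (P := fun _ : ℕ => rho d μ j) hii
        have hpair' := hpair.comp (hmp12 j)
        have h3 : ∀ᵐ z ∂((rho d μ j).prod (rho d μ j)), z.1.1 ≠ z.2.1 := by
          rw [ae_iff]
          have hms : MeasurableSet {z : (E d × ℕ) × (E d × ℕ) | ¬ z.1.1 ≠ z.2.1} := by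
            simp only [ne_eq, not_not]
            exact measurableSet_eq_fun (by fun_prop) (by fun_prop)
          rw [Measure.measure_prod_null hms]
          refine ae_of_all _ fun a => ?_
          have : (Prod.mk a ⁻¹' {z : (E d × ℕ) × (E d × ℕ) | ¬ z.1.1 ≠ z.2.1}) =
              ({a.1} : Set (E d)) ×ˢ (univ : Set ℕ) := by
            ext b
            simp [eq_comm]
          change rho d μ j (Prod.mk a ⁻¹' {z : (E d × ℕ) × (E d × ℕ) | ¬ z.1.1 ≠ z.2.1}) = 0
          rw [this, rho, Measure.prod_prod]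
          have h4 : ProbabilityTheory.cond (volume : Measure (E d)) (shell d j) {a.1} = 0 := by
            unfold ProbabilityTheory.cond
            rw [Measure.smul_apply, Measure.restrict_apply (measurableSet_singleton _)]
            have h5 : volume ({a.1} ∩ shell d j) = 0 :=
              measure_mono_null inter_subset_left (measure_singleton _)
            rw [h5, smul_zero]
          rw [h4, zero_mul]
        filter_upwards [hpair'.quasiMeasurePreserving.ae h3] with ω hω _
        exact hω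
    filter_upwards [h1, h2] with ω hω1 hω2
    exact ⟨hω1, hω2⟩
  refine ⟨P, hP, ?_⟩
  intro n S hS hb hdis
  -- a common radius
  obtain ⟨J, hJ⟩ : ∃ J : ℕ, ∀ l, Prod.fst '' S l ⊆ ball (0 : E d) J := by
    have h1 : ∀ l, ∃ J : ℕ, Prod.fst '' S l ⊆ ball (0 : E d) J := by
      intro l
      obtain ⟨R, hR⟩ := (hb l).subset_ball (0 : E d)
      obtain ⟨J, hJ⟩ := exists_nat_gt R
      exact ⟨J, hR.trans (ball_subset_ball hJ.le)⟩
    choose J hJ using h1
    refine ⟨Finset.univ.sup J, fun l => (hJ l).trans (ball_subset_ball ?_)⟩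
    exact_mod_cast Finset.le_sup (Finset.mem_univ l)
  have hae : ∀ l, (fun ω : Om d => markCount (pts ω) (deg ω) (S l)) =ᵐ[P]
      fun ω => ((total J (S l) ω : ℕ) : ℕ∞) := by
    intro l
    filter_upwards [hgood] with ω hω
    exact hω.markCount_eq (S l) J (hJ l)
  have hcast : Measurable (Nat.cast : ℕ → ℕ∞) := measurable_from_nat
  refine ⟨?_, fun l => ?_⟩
  · have h1 := (iIndepFun_total S hS hdis J (rate d) (rho d μ)).comp
      (fun _ => (Nat.cast : ℕ → ℕ∞)) (fun _ => hcast)
    exact h1.congr fun l => (hae l).symm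
  · have h1 := hasLaw_total (S l) (hS l) J (rate d) (rho d μ)
    have h2 : HasLaw (fun ω : Om d => ((total J (S l) ω : ℕ) : ℕ∞))
        ((poissonMeasure (∑ j ∈ Finset.range J, rate d j * (rho d μ j (S l)).toNNReal)).map
          (Nat.cast : ℕ → ℕ∞)) P := by
      refine ⟨(hcast.comp (measurable_total J (hS l))).aemeasurable, ?_⟩
      rw [← h1.map_eq, Measure.map_map hcast (measurable_total J (hS l))]
      rfl
    have h3 : (∑ j ∈ Finset.range J, rate d j * (rho d μ j (S l)).toNNReal) =
        (((volume : Measure (E d)).prod μ.toMeasure) (S l)).toNNReal := by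
      have h4 := sum_rate_mul_rho hd μ J (S l) (hS l)
      have h5 : S l ∩ (ball (0 : E d) J ×ˢ univ) = S l := by
        apply inter_eq_left.2
        intro x hx
        exact ⟨hJ l ⟨x, hx, rfl⟩, mem_univ _⟩
      rw [h5] at h4
      rw [← h4, ENNReal.toNNReal_sum]
      · refine Finset.sum_congr rfl fun j _ => ?_
        rw [ENNReal.toNNReal_mul, ENNReal.toNNReal_coe]
      · intro j _
        exact ENNReal.mul_ne_top ENNReal.coe_ne_top (measure_ne_top _ _)
    rw [← h3]
    exact h2.congr (hae l)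

end StableMM
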